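import Pool.Agent.Helper92.HRU.LW

/-!
# HRT at the roots of unity, Part B (the explicit part): definitions

Paper proof: `/team-store/HRT_paper.md`, Part B.
`L2 = Lp ℂ 2 volume`, `W α` = Weyl operator on `L2`, `mulOp φ` = multiplication by `φ`
(bounded measurable), `trOp c` = translation `f ↦ f (· - c)`.
-/

set_option autoImplicit false

namespace Pool.Agent.Helper92.HRU

open Complex Set MeasureTheory Filter Topology
open scoped ComplexConjugate Real ENNReal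
open Pool.Agent.Helper84.HRT (Weyl node chi mu8 XL Data Aop Bop Good)

/-! ### Parameters -/

/-- `c(u) = √(1 - u²/4)` -/
noncomputable def cc (u : ℝ) : ℝ := √(1 - u ^ 2 / 4)

/-- `ω = e^{iπ/3}` -/
noncomputable def o1 : ℂ := ⟨1 / 2, √3 / 2⟩

/-- `ω² = e^{2iπ/3}` -/
noncomputable def o2 : ℂ := ⟨-(1 / 2), √3 / 2⟩

/-- The parameters: the large number `L` and the angle `tb` (in turns) of the fourth node `b`. -/
structure Par where
  L : ℝ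
  tb : ℝ
  hL : 100 ≤ L
  re_pos : 0 < (node tb).re
  hdel : |π - √3 - 2 * (node tb).im| ≤ (L ^ 40)⁻¹
  rat : ∃ k d : ℕ, 0 < d ∧ tb = k / d

namespace Par
variable (P : Par)

/-- the node `b` -/
noncomputable def b : ℂ := node P.tb
/-- `s = L^{-10}` -/
noncomputable def s : ℝ := (P.L ^ 10)⁻¹
/-- `ĝ = L^{-4}` -/
noncomputable def gh : ℝ := (P.L ^ 4)⁻¹
/-- `ε₂ = L^{-3}` -/
noncomputable def e2 : ℝ := (P.L ^ 3)⁻¹
/-- `δ = π - √3 - 2 Im b` -/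
noncomputable def del : ℝ := π - √3 - 2 * P.b.im
/-- the shift inside a dimer: `π - δ = √3 + 2 Im b` -/
noncomputable def sh : ℝ := π - P.del
noncomputable def C1 : ℝ := Real.cos ((√3 * P.b.re - P.b.im) / 2)
noncomputable def C2 : ℝ := Real.cos ((√3 * P.b.re + P.b.im) / 2)
noncomputable def v2 : ℝ := P.C1 / P.C2
noncomputable def wh : ℝ := P.v2 / Real.cos (√3 / 2)
noncomputable def Th : ℝ := P.wh + P.gh
noncomputable def ep : ℝ := P.Th * Real.sin √3 / (2 * P.C1)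
/-- the gap `g = s² ĝ` -/
noncomputable def g : ℝ := P.s ^ 2 * P.gh

end Par

/-! ### The base and the perturbation -/

/-- `W = (U_ω + h.c.) + v₂ (U_{ω²} + h.c.) + ε (γ_b U_b + h.c.)` -/
noncomputable def Wb (P : Par) (gb : ℂ) : L2 →L[ℂ] L2 :=
  (W o1 + W (-o1)) + (P.v2 : ℂ) • (W o2 + W (-o2))
    + (P.ep : ℂ) • (gb • W P.b + (conj gb) • W (-P.b))

/-- multiplication by `2 cos x` -/
noncomputable def Cos2 : L2 →L[ℂ] L2 := mulOp fun x => ((2 * Real.cos x : ℝ) : ℂ)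

/-- the normalised base operator `2 cos x + s W` -/
noncomputable def B0 (P : Par) (gb : ℂ) : L2 →L[ℂ] L2 := Cos2 + (P.s : ℂ) • Wb P gb

/-- `κ̂` -/
noncomputable def kaph (P : Par) (u : ℝ) : ℝ := if 1 / 2 < |u| ∧ |u| < 3 / 2 then 1 else P.e2

/-- `κ(t) = |cos 2πt| κ̂(2 sin 2πt)` -/
noncomputable def kap (P : Par) (t : ℝ) : ℝ :=
  |Real.cos (2 * π * t)| * kaph P (2 * Real.sin (2 * π * t))

/-- admissible coefficient functions (the same fields as `Data.Adm`) -/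
structure AdmX (P : Par) (r : ℝ) (ξ : ℝ → ℂ) : Prop where
  meas : Measurable ξ
  sym : ∀ᵐ t : ℝ, ξ (t + 1 / 2) = conj (ξ t)
  bd : ∀ᵐ t : ℝ, ‖ξ t‖ ≤ r * kap P t

/-- the window `1/2 < |2 sin 2πt| < 3/2` -/
def Win : Set ℝ := {t | 1 / 2 < |2 * Real.sin (2 * π * t)| ∧ |2 * Real.sin (2 * π * t)| < 3 / 2}

/-- the perturbation `X = ∫ ξ(t) U(e^{2πit}) dt` -/
noncomputable def X (ξ : ℝ → ℂ) : L2 →L[ℂ] L2 := XL LW mu8 ξ

/-- the part of `X` in the window -/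
noncomputable def X0 (ξ : ℝ → ℂ) : L2 →L[ℂ] L2 := XL LW mu8 (Win.indicator ξ)

/-- the part of `X` outside the window -/
noncomputable def X1 (ξ : ℝ → ℂ) : L2 →L[ℂ] L2 := XL LW mu8 (Winᶜ.indicator ξ)

/-- the full normalised operator `A = 2 cos x + s W + X` -/
noncomputable def AA (P : Par) (gb : ℂ) (ξ : ℝ → ℂ) : L2 →L[ℂ] L2 := B0 P gb + X ξ

/-- the operator with kernel `k(u) e^{ic(u)(x-u/2)} + conj k(-u) e^{-ic(u)(x-u/2)}` -/
noncomputable def kerf (k : ℝ → ℂ) (f : ℝ → ℂ) (x : ℝ) : ℂ :=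
  ∫ u in Ioo (-2 : ℝ) 2, (k u * exp (I * ((cc u * (x - u / 2) : ℝ) : ℂ))
    + conj (k (-u)) * exp (-(I * ((cc u * (x - u / 2) : ℝ) : ℂ)))) * f (x - u)

/-! ### Lines -/

/-- the lines -/
noncomputable def Pt (P : Par) (n : ℤ) : ℝ := π / 2 + π * n + if Even n then 0 else P.del

/-- neighbourhoods of the lines -/
def Qs (P : Par) : Set ℝ := ⋃ n : ℤ, Ioo (Pt P n - 1 / 20) (Pt P n + 1 / 20)

/-- the projection on the neighbourhoods of the lines -/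
noncomputable def Q (P : Par) : L2 →L[ℂ] L2 := mulOp ((Qs P).indicator fun _ => 1)

/-- the complementary projection -/
noncomputable def Qc (P : Par) : L2 →L[ℂ] L2 := mulOp ((Qs P)ᶜ.indicator fun _ => 1)

/-- `G = 1_{Q'} / (2 cos x)` -/
noncomputable def gf (P : Par) : ℝ → ℂ := (Qs P)ᶜ.indicator fun x => (((2 * Real.cos x)⁻¹ : ℝ) : ℂ)

noncomputable def G (P : Par) : L2 →L[ℂ] L2 := mulOp (gf P)

/-- the number of the cell `[π n, π (n+1))` of `x` -/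
noncomputable def idx (x : ℝ) : ℤ := ⌊x / π⌋

/-- the distance (with sign) to the line of the cell -/
noncomputable def yo (P : Par) (x : ℝ) : ℝ := x - Pt P (idx x)

/-- `∫_{cell n} |f|` -/
noncomputable def aF (f : L2) (n : ℤ) : ℝ := ∫ x in Ico (π * n) (π * (n + 1)), ‖f x‖

/-- the norm `a(f)` -/
noncomputable def aN (f : L2) : ℝ := √(∑' n : ℤ, aF f n ^ 2)

/-- the operator `D = (Q'(2cos x + sW)Q')⁻¹` on `Ran Q'`, extended by `0` -/
structure IsD (P : Par) (gb : ℂ) (D : L2 →L[ℂ] L2) : Prop where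
  left : ∀ f, Q P (D f) = 0
  right : ∀ f, D (Q P f) = 0
  inv1 : ∀ f, Qc P (B0 P gb (D f)) = Qc P f
  inv2 : ∀ f, D (B0 P gb (Qc P f)) = Qc P f
  symm : ∀ f h, inner ℂ (D f) h = inner ℂ f (D h)
  bound : ∀ f, ‖D f‖ ≤ 22 * ‖f‖
  boundA : ∀ f, aN (D f) ≤ 22 * aN f

/-! ### The bands -/

/-- `ρ(y) = √(4 sin² y + s⁴ Th²)` -/
noncomputable def rho (P : Par) (y : ℝ) : ℝ := √(4 * Real.sin y ^ 2 + P.s ^ 4 * P.Th ^ 2)
/-- positive band -/
noncomputable def ee (P : Par) (y : ℝ) : ℝ := rho P y - P.s ^ 2 * P.wh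
/-- negative band (absolute value) -/
noncomputable def eb (P : Par) (y : ℝ) : ℝ := rho P y + P.s ^ 2 * P.wh
noncomputable def cf (P : Par) (y : ℝ) : ℝ := 2 * Real.sin y / rho P y
noncomputable def sf (P : Par) (y : ℝ) : ℝ := P.s ^ 2 * P.Th / rho P y

/-- the phase `ζ_k`; the hopping is `t_k = - Th ζ_k = γ_b Th e^{2πi (Re b - 1/2) k}` -/
noncomputable def ze (P : Par) (gb : ℂ) (k : ℤ) : ℂ :=
  -(gb * exp (I * ((2 * π * (P.b.re - 1 / 2) * k : ℝ) : ℂ)))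

open scoped Classical in
/-- diagonal of `J` -/
noncomputable def j0 (P : Par) (x : ℝ) : ℂ :=
  if x ∈ Qs P then (if Even (idx x) then -((cf P (yo P x) : ℝ) : ℂ)
    else ((cf P (yo P x) : ℝ) : ℂ)) else 0

open scoped Classical in
/-- phase of the hopping from the odd line to the even line of a dimer -/
noncomputable def s1 (P : Par) (gb : ℂ) (x : ℝ) : ℂ :=
  if x ∈ Qs P ∧ Even (idx x) then ze P gb (idx x / 2) else 0

open scoped Classical in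
/-- phase of the hopping from the even line to the odd line of a dimer -/
noncomputable def s2 (P : Par) (gb : ℂ) (x : ℝ) : ℂ :=
  if x ∈ Qs P ∧ Odd (idx x) then conj (ze P gb ((idx x + 1) / 2)) else 0

/-- the swap of the two lines of the dimers (with phases) -/
noncomputable def Sw (P : Par) (gb : ℂ) : L2 →L[ℂ] L2 :=
  mulOp (s1 P gb) ∘L (trOp P.sh).toContinuousLinearMap
    + mulOp (s2 P gb) ∘L (trOp (-P.sh)).toContinuousLinearMap

/-- multiplication by `φ(y)` on the lines -/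
noncomputable def yMul (P : Par) (φ : ℝ → ℝ) : L2 →L[ℂ] L2 :=
  mulOp ((Qs P).indicator fun x => ((φ (yo P x) : ℝ) : ℂ))

/-- the involution `J` on `Ran Q` (sign of the dimer operator) -/
noncomputable def Jo (P : Par) (gb : ℂ) : L2 →L[ℂ] L2 :=
  mulOp (j0 P) + yMul P (sf P) ∘L Sw P gb

/-- projection on the positive band -/
noncomputable def Qp (P : Par) (gb : ℂ) : L2 →L[ℂ] L2 := (1 / 2 : ℂ) • (Q P + Jo P gb)

/-- projection on the negative band -/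
noncomputable def Qm (P : Par) (gb : ℂ) : L2 →L[ℂ] L2 := (1 / 2 : ℂ) • (Q P - Jo P gb)

/-- the weight `√(|y| + |δ|)` on the lines -/
noncomputable def wY (P : Par) : L2 →L[ℂ] L2 := yMul P fun y => √(|y| + |P.del|)

/-- the energy `E(f)` -/
noncomputable def En (P : Par) (gb : ℂ) (f : L2) : ℝ :=
  ‖yMul P (fun y => √(ee P y)) (Qp P gb f)‖ ^ 2 + ‖yMul P (fun y => √(eb P y)) (Qm P gb f)‖ ^ 2

/-- the dimer operator `H_D = e Q₊ - ē Q₋` -/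
noncomputable def HD (P : Par) (gb : ℂ) : L2 →L[ℂ] L2 :=
  yMul P (ee P) ∘L Qp P gb - yMul P (eb P) ∘L Qm P gb

/-- `T(f', f) = ⟨X₀ f', G X₀ f⟩` -/
noncomputable def TT (P : Par) (ξ : ℝ → ℂ) (f' f : L2) : ℂ := inner ℂ (X0 ξ f') (G P (X0 ξ f))

/-- `Λ = ∫ dy / e(y)` -/
noncomputable def Lam (P : Par) : ℝ := ∫ y in Ioo (-(1 / 20) : ℝ) (1 / 20), (ee P y)⁻¹

/-- `W = (1/8π²) ∫_{1/2}^{3/2} (sin (v c(v)) / sin v) sin (π c(v)) dv` -/
noncomputable def Wc : ℝ := (8 * π ^ 2)⁻¹ *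
  ∫ v in Ioo (1 / 2 : ℝ) (3 / 2), Real.sin (v * cc v) / Real.sin v * Real.sin (π * cc v)

/-! ### Fibres -/

/-- `f_n(y) = f(Pt n + y)`, `|y| < 1/20` -/
noncomputable def ln (P : Par) (f : L2) (n : ℤ) (y : ℝ) : ℂ :=
  (Ioo (-(1 / 20) : ℝ) (1 / 20)).indicator (fun y => (f : ℝ → ℂ) (Pt P n + y)) y

/-- the component on the positive band of the dimer `k` (lines `2k-1`, `2k`) -/
noncomputable def al (P : Par) (gb : ℂ) (f : L2) (k : ℤ) (y : ℝ) : ℂ :=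
  ((√((1 + cf P y) / 2) : ℝ) : ℂ) * ln P f (2 * k - 1) y
    + conj (ze P gb k) * ((√((1 - cf P y) / 2) : ℝ) : ℂ) * ln P f (2 * k) y

/-- `|α(y)|` in `ℓ²(dimers)` for a family `α : ℤ → ℝ → ℂ` -/
noncomputable def Nf (α : ℤ → ℝ → ℂ) (y : ℝ) : ℝ≥0∞ := (∑' k : ℤ, ‖α k y‖ₑ ^ 2) ^ (1 / 2 : ℝ)

/-- `(1-h) |α(y)||α(y')| + h Σ_k |α_k(y)|²|α_k(y')|² / (|α(y)||α(y')|)` -/
noncomputable def Fac (h : ℝ) (α : ℤ → ℝ → ℂ) (y y' : ℝ) : ℝ≥0∞ :=
  ENNReal.ofReal (1 - h) * (Nf α y * Nf α y')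
    + ENNReal.ofReal h * ((∑' k : ℤ, ‖α k y‖ₑ ^ 2 * ‖α k y'‖ₑ ^ 2) / (Nf α y * Nf α y'))

/-- the half width of the lines -/
def Iy : Set ℝ := Ioo (-(1 / 20) : ℝ) (1 / 20)

/-- `∫ e(y) |α(y)|² dy` -/
noncomputable def Ef (e : ℝ → ℝ) (α : ℤ → ℝ → ℂ) : ℝ≥0∞ :=
  ∫⁻ y in Iy, ENNReal.ofReal (e y) * Nf α y ^ 2

/-! ### Auxiliary definitions of the pieces -/

/-- multiplier of the shift `0` in `W G W` -/
noncomputable def ph0 (P : Par) (x : ℝ) : ℝ :=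
  P.v2 * (Real.cos (x - √3 / 2) / Real.cos (x - √3) + Real.cos (x + √3 / 2) / Real.cos (x + √3))
    + (1 + P.v2 ^ 2) * ((2 * Real.cos (x - √3))⁻¹ + (2 * Real.cos (x + √3))⁻¹)
    + P.ep ^ 2 * ((2 * Real.cos (x - 2 * P.b.im))⁻¹ + (2 * Real.cos (x + 2 * P.b.im))⁻¹)

/-- multiplier of the shift `+sh` in `W G W` (at the point of arrival `x`) -/
noncomputable def php (P : Par) (gb : ℂ) (x : ℝ) : ℂ :=
  gb * P.ep * (chr (o1 + P.b) x * (
      exp (-(I * (((√3 * P.b.re - P.b.im) / 2 : ℝ) : ℂ))) * ((2 * Real.cos (x - √3))⁻¹ : ℝ)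
    + exp (I * (((√3 * P.b.re - P.b.im) / 2 : ℝ) : ℂ)) * ((2 * Real.cos (x - 2 * P.b.im))⁻¹ : ℝ))
  + P.v2 * chr (o2 + P.b) x * (
      exp (-(I * (((√3 * P.b.re + P.b.im) / 2 : ℝ) : ℂ))) * ((2 * Real.cos (x - √3))⁻¹ : ℝ)
    + exp (I * (((√3 * P.b.re + P.b.im) / 2 : ℝ) : ℂ)) * ((2 * Real.cos (x - 2 * P.b.im))⁻¹ : ℝ)))

/-- `y`-multipliers: bounded measurable `φ` on `(-1/20, 1/20)` -/
def BddY (φ : ℝ → ℝ) : Prop := Measurable φ ∧ ∃ C : ℝ, ∀ y, |y| < 1 / 20 → |φ y| ≤ C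

/-- the angles (in turns) of the base nodes `1, -1, ω, -ω, ω², -ω², b, -b` -/
noncomputable def tauP (P : Par) : Fin 8 → ℝ :=
  ![0, 1 / 2, 1 / 6, 2 / 3, 1 / 3, 5 / 6, P.tb, P.tb + 1 / 2]

/-- base coefficients -/
noncomputable def betP (P : Par) : Fin 8 → ℂ :=
  ![1, 1, P.s, P.s, P.s * P.v2, P.s * P.v2, P.s * P.ep, P.s * P.ep]

/-- admissible base phases -/
def GamP : Set (Fin 8 → ℂ) :=
  {γ | (∀ i, ‖γ i‖ = 1) ∧ γ 1 = conj (γ 0) ∧ γ 3 = conj (γ 2) ∧ γ 5 = conj (γ 4) ∧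
    γ 7 = conj (γ 6) ∧ γ 0 = γ 2 * conj (γ 4)}

/-- bad set of `κ` -/
def badP : Set ℝ := {t | Real.cos (2 * π * t) = 0 ∨ |2 * Real.sin (2 * π * t)| = 1 / 2 ∨
  |2 * Real.sin (2 * π * t)| = 3 / 2}

/-- the trial function: `al_0(y) = 1/e(y)`, `al_k = 0` for `k ≠ 0` (with `γ_b = 1`) -/
def IsTrial (P : Par) (f : L2) : Prop := Q P f = f ∧ ∀ᵐ y : ℝ, y ∈ Iy →
  ln P f (-1) y = ((√((1 + cf P y) / 2) / ee P y : ℝ) : ℂ) ∧
  ln P f 0 y = ze P 1 0 * ((√((1 - cf P y) / 2) / ee P y : ℝ) : ℂ) ∧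
  ∀ n : ℤ, n ≠ -1 → n ≠ 0 → ln P f n y = 0

end Pool.Agent.Helper92.HRU
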