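import Pool.Agent.Helper92.HRU.Weyl

/-!
# The Gaussian vector and the isometry of the coherent state transform on `L²(ℝ)`
-/

set_option autoImplicit false

namespace Pool.Agent.Helper92.HRU

open Complex Set MeasureTheory Filter Topology FourierTransform
open scoped ComplexConjugate Real ENNReal

/-- the normalised Gaussian `(2π)^{-1/4} exp (-x²/4)` -/
noncomputable def gau (x : ℝ) : ℝ := √((√(2 * π))⁻¹) * Real.exp (-x ^ 2 / 4)

theorem gau_sq (x : ℝ) : gau x ^ 2 = (√(2 * π))⁻¹ * Real.exp (-(1 / 2) * x ^ 2) := by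
  rw [gau, mul_pow, Real.sq_sqrt (by positivity), ← Real.exp_nat_mul]
  congr 2
  push_cast
  ring

theorem gau_nonneg (x : ℝ) : 0 ≤ gau x := by unfold gau; positivity

theorem continuous_gau : Continuous gau := by unfold gau; fun_prop

theorem gau_le (x : ℝ) : gau x ≤ 1 := by
  have h1 : √((√(2 * π))⁻¹) ≤ 1 := by
    rw [Real.sqrt_le_one]
    refine inv_le_one_of_one_le₀ ?_
    rw [Real.one_le_sqrt]
    nlinarith [Real.pi_gt_three]
  have h2 : Real.exp (-x ^ 2 / 4) ≤ 1 := by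
    rw [Real.exp_le_one_iff]
    nlinarith [sq_nonneg x]
  unfold gau
  exact mul_le_one₀ h1 (Real.exp_pos _).le h2

theorem integrable_gau_sq : Integrable fun x => gau x ^ 2 := by
  simp_rw [gau_sq]
  exact (integrable_exp_neg_mul_sq (by norm_num)).const_mul _

theorem integral_gau_sq : ∫ x, gau x ^ 2 = 1 := by
  simp_rw [gau_sq]
  rw [integral_const_mul, integral_gaussian]
  have h : π / (1 / 2) = 2 * π := by ring
  rw [h]
  exact inv_mul_cancel₀ (by positivity)

theorem memLp_gau : MemLp (fun x => (gau x : ℂ)) 2 (volume : Measure ℝ) := by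
  rw [memLp_two_iff_integrable_sq_norm (by
    exact (Complex.continuous_ofReal.comp continuous_gau).aestronglyMeasurable)]
  refine integrable_gau_sq.congr (ae_of_all _ fun x => ?_)
  simp [abs_of_nonneg (gau_nonneg x)]

/-- the Gaussian vector -/
noncomputable def G0 : L2 := memLp_gau.toLp _

theorem G0_coe : (G0 : ℝ → ℂ) =ᵐ[volume] fun x => (gau x : ℂ) := memLp_gau.coeFn_toLp

theorem inner_G0_W (α : ℂ) :
    inner ℂ G0 (W α G0) = exp (-((‖α‖ ^ 2 / 2 : ℝ) : ℂ)) := by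
  rw [inner_eq]
  have h1 : ∫ x, conj ((G0 : ℝ → ℂ) x) * (W α G0 : ℝ → ℂ) x
      = ∫ x : ℝ, ((√(2 * π))⁻¹ : ℂ) * exp (((-(1 / 2) : ℝ) : ℂ) * (x : ℂ) ^ 2
        + ((α.im : ℂ) + α.re * I) * x + (-(α.im : ℂ) ^ 2 - α.re * α.im * I)) := by
    refine integral_congr_ae ?_
    filter_upwards [G0_coe, W_coe α G0, ae_comp_sub G0_coe (2 * α.im)] with x h1 h2 h3
    rw [h1, h2, h3, Complex.conj_ofReal]
    have h4 : (gau x : ℂ) * (gau (x - 2 * α.im) : ℂ)
        = ((√(2 * π))⁻¹ : ℂ) * exp (((-x ^ 2 / 4 - (x - 2 * α.im) ^ 2 / 4 : ℝ) : ℂ)) := by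
      rw [← Complex.ofReal_mul, ← Complex.ofReal_exp, ← Complex.ofReal_inv, ← Complex.ofReal_mul]
      congr 1
      unfold gau
      rw [sub_eq_add_neg (-x ^ 2 / 4), Real.exp_add, neg_div]
      have h5 : √((√(2 * π))⁻¹) * √((√(2 * π))⁻¹) = (√(2 * π))⁻¹ :=
        Real.mul_self_sqrt (by positivity)
      rw [neg_div]
      linear_combination (Real.exp (-(x ^ 2 / 4)) * Real.exp (-((x - 2 * α.im) ^ 2 / 4))) * h5
    calc (gau x : ℂ) * (chr α x * (gau (x - 2 * α.im) : ℂ))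
        = ((gau x : ℂ) * (gau (x - 2 * α.im) : ℂ)) * chr α x := by ring
      _ = _ := by
        rw [h4, chr, mul_assoc, ← Complex.exp_add]
        congr 2
        push_cast
        ring
  rw [h1, integral_const_mul, integral_cexp_quadratic (by norm_num)]
  have h2 : ((π : ℂ) / -((-(1 / 2) : ℝ) : ℂ)) = ((2 * π : ℝ) : ℂ) := by
    push_cast
    ring
  have h3 : ((2 * π : ℝ) : ℂ) ^ (1 / 2 : ℂ) = ((√(2 * π) : ℝ) : ℂ) := by
    rw [Real.sqrt_eq_rpow, Complex.ofReal_cpow (by positivity)]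
    norm_num
  rw [h2, h3, ← mul_assoc]
  have h4 : ((√(2 * π))⁻¹ : ℂ) * ((√(2 * π) : ℝ) : ℂ) = 1 := by
    refine inv_mul_cancel₀ ?_
    rw [Complex.ofReal_ne_zero]
    positivity
  rw [h4, one_mul]
  congr 1
  rw [← Complex.normSq_eq_norm_sq, Complex.normSq_apply]
  push_cast
  field_simp
  ring_nf
  rw [Complex.I_sq]
  ring

theorem norm_G0 : ‖G0‖ = 1 := by
  have h := inner_G0_W 0
  rw [W_zero, inner_self_eq_norm_sq_to_K] at h
  simp only [norm_zero, ne_eq, OfNat.ofNat_ne_zero, not_false_eq_true, zero_pow, zero_div,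
    ofReal_zero, neg_zero, Complex.exp_zero] at h
  have h2 : ‖G0‖ ^ 2 = 1 := by
    have h3 : ((‖G0‖ ^ 2 : ℝ) : ℂ) = ((1 : ℝ) : ℂ) := by
      rw [Complex.ofReal_pow, Complex.ofReal_one]
      exact h
    exact Complex.ofReal_injective h3
  nlinarith [norm_nonneg G0]

end Pool.Agent.Helper92.HRU
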