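import Pool.Agent.Helper92.HRU.Iso

/-!
# The coherent state transform is isometric
-/

set_option autoImplicit false

namespace Pool.Agent.Helper92.HRU

open Complex Set MeasureTheory Filter Topology FourierTransform
open scoped ComplexConjugate Real ENNReal

/-- the windowed function -/
noncomputable def win (b : ℝ) (f : L2) (x : ℝ) : ℂ := (gau (x + 2 * b) : ℂ) * f x

theorem bddM_gau (b : ℝ) : BddM fun x => (gau (x + 2 * b) : ℂ) :=
  ⟨(Complex.continuous_ofReal.comp (continuous_gau.comp (by fun_prop))).measurable, 1, fun x => by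
    rw [Complex.norm_real, Real.norm_eq_abs, abs_of_nonneg (gau_nonneg _)]
    exact gau_le _⟩

theorem memLp_win (b : ℝ) (f : L2) : MemLp (win b f) 2 (volume : Measure ℝ) :=
  memLp_mul (bddM_gau b) f

theorem memLp_gau_add (b : ℝ) : MemLp (fun x => (gau (x + 2 * b) : ℂ)) 2 (volume : Measure ℝ) :=
  memLp_gau.comp_measurePreserving (measurePreserving_add_right volume (2 * b))

theorem integrable_win (b : ℝ) (f : L2) : Integrable (win b f) (volume : Measure ℝ) :=
  (memLp_gau_add b).integrable_mul (Lp.memLp f)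

theorem inner_W_eq (z : ℂ) (f : L2) :
    inner ℂ (W (-z) G0) f
      = exp (I * ((z.re * z.im : ℝ) : ℂ)) * 𝓕 (win z.im f) (-(2 * π)⁻¹ * z.re) := by
  rw [inner_eq, Real.fourier_real_eq, ← integral_const_mul]
  refine integral_congr_ae ?_
  filter_upwards [W_coe (-z) G0, ae_comp_sub G0_coe (2 * (-z).im)] with x h1 h2
  rw [h1, h2, map_mul, Complex.conj_ofReal, Circle.smul_def, smul_eq_mul, win, chr,
    ← Complex.exp_conj, Real.fourierChar_apply]
  have h3 : x - 2 * (-z).im = x + 2 * z.im := by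
    rw [Complex.neg_im]
    ring
  rw [h3]
  have h4 : exp (conj (I * (((-z).re * (x - (-z).im) : ℝ) : ℂ)))
      = exp (I * ((z.re * z.im : ℝ) : ℂ))
        * exp (((2 * π * -(x * (-(2 * π)⁻¹ * z.re)) : ℝ) : ℂ) * I) := by
    rw [← Complex.exp_add]
    congr 1
    have h5 : 2 * π * -(x * (-(2 * π)⁻¹ * z.re)) = x * z.re := by
      field_simp
    rw [h5, map_mul, Complex.conj_I, Complex.conj_ofReal]
    simp only [Complex.neg_re, Complex.neg_im]
    push_cast
    ring
  rw [h4]
  ring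

theorem lintegral_fourier (h : ℝ → ℂ) (h1 : Integrable h) (h2 : MemLp h 2) :
    ∫⁻ a : ℝ, ‖𝓕 h (-(2 * π)⁻¹ * a)‖ₑ ^ 2 = ENNReal.ofReal (2 * π) * ∫⁻ x, ‖h x‖ₑ ^ 2 := by
  have hc : Continuous (𝓕 h) :=
    VectorFourier.fourierIntegral_continuous (L := innerₗ ℝ) Real.continuous_fourierChar
      continuous_inner h1
  have hpi : (-(2 * π)⁻¹ : ℝ) ≠ 0 := by
    have := Real.pi_pos
    have h3 : 0 < (2 * π)⁻¹ := by positivity
    linarith
  have e1 : ∫⁻ a : ℝ, ‖𝓕 h (-(2 * π)⁻¹ * a)‖ₑ ^ 2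
      = ∫⁻ t, ‖𝓕 h t‖ₑ ^ 2 ∂(Measure.map (fun a : ℝ => -(2 * π)⁻¹ * a) volume) := by
    rw [lintegral_map (by fun_prop) (by fun_prop)]
  rw [e1, Real.map_volume_mul_left hpi, lintegral_smul_measure]
  have e2 : |(-(2 * π)⁻¹)⁻¹| = 2 * π := by
    rw [inv_neg, inv_inv, abs_neg, abs_of_pos (by positivity)]
  have e3 : ∀ {g : ℝ → ℂ}, MemLp g 2 (volume : Measure ℝ) →
      ∫⁻ t, ‖g t‖ₑ ^ 2 = ENNReal.ofReal (∫ t, ‖g t‖ ^ 2) := by
    intro g hg
    rw [ofReal_integral_eq_lintegral_ofReal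
      ((memLp_two_iff_integrable_sq_norm hg.aestronglyMeasurable).mp hg)
      (ae_of_all _ fun u => by positivity)]
    refine lintegral_congr fun t => ?_
    rw [← ofReal_norm, ENNReal.ofReal_pow (norm_nonneg _)]
  rw [e2, e3 (memLp_fourier h1 h2), e3 h2, plancherel h1 h2, smul_eq_mul]

theorem lintegral_gau (x : ℝ) :
    ∫⁻ b : ℝ, ENNReal.ofReal (gau (x + 2 * b) ^ 2) = ENNReal.ofReal (1 / 2) := by
  have e1 : Integrable fun b : ℝ => gau (x + 2 * b) ^ 2 :=
    (integrable_gau_sq.comp_add_left x).comp_mul_left' (R := 2) (by norm_num)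
  rw [← ofReal_integral_eq_lintegral_ofReal e1 (ae_of_all _ fun b => by positivity)]
  congr 1
  have e3 := Measure.integral_comp_mul_left (fun y => gau (x + y) ^ 2) 2
  rw [e3]
  have e2 : ∫ y, gau (x + y) ^ 2 = 1 := by
    have := integral_add_left_eq_self (μ := (volume : Measure ℝ)) (fun y => gau y ^ 2) x
    rw [this, integral_gau_sq]
  rw [e2]
  norm_num

theorem lintegral_coh (f : L2) :
    ∫⁻ z : ℂ, ‖inner ℂ (W (-z) G0) f‖ₑ ^ 2 = ENNReal.ofReal π * ∫⁻ x, ‖f x‖ₑ ^ 2 := by
  have hcont : Continuous fun z : ℂ => inner ℂ (W (-z) G0) f :=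
    ((continuous_W G0).comp continuous_neg).inner continuous_const
  have e1 : ∫⁻ z : ℂ, ‖inner ℂ (W (-z) G0) f‖ₑ ^ 2
      = ∫⁻ p : ℝ × ℝ, ‖inner ℂ (W (-(Complex.measurableEquivRealProd.symm p)) G0) f‖ₑ ^ 2 := by
    rw [← (Complex.volume_preserving_equiv_real_prod.symm).lintegral_comp_emb
      Complex.measurableEquivRealProd.symm.measurableEmbedding]
  have hcont2 : Continuous fun p : ℝ × ℝ =>
      inner ℂ (W (-(Complex.measurableEquivRealProd.symm p)) G0) f := by
    refine hcont.comp ?_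
    have : (fun p : ℝ × ℝ => Complex.measurableEquivRealProd.symm p)
        = fun p : ℝ × ℝ => (p.1 : ℂ) + p.2 * I := by
      funext p
      apply Complex.ext <;> simp [Complex.measurableEquivRealProd]
    change Continuous fun p : ℝ × ℝ => Complex.measurableEquivRealProd.symm p
    rw [this]
    fun_prop
  rw [e1, Measure.volume_eq_prod, lintegral_prod_symm _
    (hcont2.measurable.enorm.pow_const 2).aemeasurable]
  have e2 : ∀ b : ℝ, ∫⁻ a : ℝ,
      ‖inner ℂ (W (-(Complex.measurableEquivRealProd.symm (a, b))) G0) f‖ₑ ^ 2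
      = ENNReal.ofReal (2 * π) * ∫⁻ x, ENNReal.ofReal (gau (x + 2 * b) ^ 2) * ‖f x‖ₑ ^ 2 := by
    intro b
    have e3 := lintegral_fourier (win b f) (integrable_win b f) (memLp_win b f)
    calc ∫⁻ a : ℝ, ‖inner ℂ (W (-(Complex.measurableEquivRealProd.symm (a, b))) G0) f‖ₑ ^ 2
        = ∫⁻ a : ℝ, ‖𝓕 (win b f) (-(2 * π)⁻¹ * a)‖ₑ ^ 2 := by
          refine lintegral_congr fun a => ?_
          rw [inner_W_eq, enorm_mul]
          have e4 : ‖exp (I * (((Complex.measurableEquivRealProd.symm (a, b)).re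
              * (Complex.measurableEquivRealProd.symm (a, b)).im : ℝ) : ℂ))‖ₑ = 1 := by
            rw [← ofReal_norm, mul_comm, Complex.norm_exp_ofReal_mul_I,
              ENNReal.ofReal_one]
          rw [e4, one_mul]
          rfl
      _ = _ := by
          rw [e3]
          congr 1
          refine lintegral_congr fun x => ?_
          rw [win, enorm_mul, mul_pow]
          congr 1
          rw [← ofReal_norm, Complex.norm_real, Real.norm_eq_abs,
            abs_of_nonneg (gau_nonneg _), ENNReal.ofReal_pow (gau_nonneg _)]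
  simp_rw [e2]
  rw [lintegral_const_mul' _ _ ENNReal.ofReal_ne_top, lintegral_lintegral_swap]
  · have e5 : ∀ x : ℝ, ∫⁻ b : ℝ, ENNReal.ofReal (gau (x + 2 * b) ^ 2) * ‖f x‖ₑ ^ 2
        = ENNReal.ofReal (1 / 2) * ‖f x‖ₑ ^ 2 := by
      intro x
      rw [lintegral_mul_const _ (by
        exact ((continuous_gau.comp (by fun_prop)).pow 2).measurable.ennreal_ofReal),
        lintegral_gau]
    simp_rw [e5]
    rw [lintegral_const_mul' _ _ ENNReal.ofReal_ne_top, ← mul_assoc,
      ← ENNReal.ofReal_mul (by positivity)]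
    congr 2
    ring
  · change AEMeasurable ((fun p : ℝ × ℝ => ENNReal.ofReal (gau (p.2 + 2 * p.1) ^ 2))
      * fun p : ℝ × ℝ => ‖f p.2‖ₑ ^ 2) (volume.prod volume)
    refine AEMeasurable.mul ?_ ?_
    · exact (((continuous_gau.comp (by fun_prop : Continuous fun p : ℝ × ℝ =>
        p.2 + 2 * p.1)).pow 2).measurable.ennreal_ofReal).aemeasurable
    · exact ((Lp.aestronglyMeasurable f).enorm.pow_const 2).comp_quasiMeasurePreserving
        Measure.quasiMeasurePreserving_snd

end Pool.Agent.Helper92.HRU
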