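import Mathlib

/-!
# Multiplication and translation operators on `L²(ℝ)`
-/

set_option autoImplicit false

namespace Pool.Agent.Helper92.HRU

open Complex Set MeasureTheory Filter Topology
open scoped ComplexConjugate Real ENNReal

/-- `L²(ℝ)` -/
noncomputable abbrev L2 := Lp ℂ 2 (volume : Measure ℝ)

/-- `φ` is measurable and bounded -/
def BddM (φ : ℝ → ℂ) : Prop := Measurable φ ∧ ∃ C : ℝ, ∀ x, ‖φ x‖ ≤ C

theorem memLp_mul {φ : ℝ → ℂ} (h : BddM φ) (f : L2) :
    MemLp (fun x => φ x * f x) 2 (volume : Measure ℝ) := by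
  obtain ⟨hm, C, hC⟩ := h
  refine (Lp.memLp f).of_le_mul (c := C) ?_ ?_
  · exact hm.aestronglyMeasurable.mul (Lp.aestronglyMeasurable f)
  · refine ae_of_all _ fun x => ?_
    rw [norm_mul]
    exact mul_le_mul_of_nonneg_right (hC x) (norm_nonneg _)

open scoped Classical in
/-- multiplication by the bounded measurable function `φ` (zero if `φ` is not such) -/
noncomputable def mulOp (φ : ℝ → ℂ) : L2 →L[ℂ] L2 :=
  if h : BddM φ then
    LinearMap.mkContinuous
      { toFun := fun f => (memLp_mul h f).toLp _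
        map_add' := fun f g => by
          rw [← MemLp.toLp_add]
          refine MemLp.toLp_congr _ _ ?_
          filter_upwards [Lp.coeFn_add f g] with x hx
          simp only [hx, Pi.add_apply, mul_add]
        map_smul' := fun c f => by
          rw [RingHom.id_apply, ← MemLp.toLp_const_smul]
          refine MemLp.toLp_congr _ _ ?_
          filter_upwards [Lp.coeFn_smul c f] with x hx
          simp only [hx, Pi.smul_apply, smul_eq_mul]
          ring }
      h.2.choose (by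
        intro f
        refine Lp.norm_le_mul_norm_of_ae_le_mul ?_
        filter_upwards [(memLp_mul h f).coeFn_toLp] with x hx
        change ‖((memLp_mul h f).toLp _ : ℝ → ℂ) x‖ ≤ _
        rw [hx, norm_mul]
        exact mul_le_mul_of_nonneg_right (h.2.choose_spec x) (norm_nonneg _))
  else 0

theorem mulOp_coe {φ : ℝ → ℂ} (h : BddM φ) (f : L2) :
    (mulOp φ f : ℝ → ℂ) =ᵐ[volume] fun x => φ x * f x := by
  rw [mulOp, dif_pos h]
  exact (memLp_mul h f).coeFn_toLp

theorem norm_mulOp_le {φ : ℝ → ℂ} (h : BddM φ) {C : ℝ} (hC : ∀ x, ‖φ x‖ ≤ C) (f : L2) :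
    ‖mulOp φ f‖ ≤ C * ‖f‖ := by
  refine Lp.norm_le_mul_norm_of_ae_le_mul ?_
  filter_upwards [mulOp_coe h f] with x hx
  rw [hx, norm_mul]
  exact mul_le_mul_of_nonneg_right (hC x) (norm_nonneg _)

theorem BddM.mul {φ ψ : ℝ → ℂ} (h : BddM φ) (h' : BddM ψ) : BddM (fun x => φ x * ψ x) := by
  obtain ⟨hm, C, hC⟩ := h
  obtain ⟨hm', C', hC'⟩ := h'
  refine ⟨hm.mul hm', C * C', fun x => ?_⟩
  rw [norm_mul]
  exact mul_le_mul (hC x) (hC' x) (norm_nonneg _) ((norm_nonneg _).trans (hC x))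

theorem BddM.star {φ : ℝ → ℂ} (h : BddM φ) : BddM (fun x => conj (φ x)) := by
  obtain ⟨hm, C, hC⟩ := h
  exact ⟨by fun_prop, C, fun x => by simpa using hC x⟩

theorem BddM.comp_add {φ : ℝ → ℂ} (h : BddM φ) (c : ℝ) : BddM (fun x => φ (x + c)) := by
  obtain ⟨hm, C, hC⟩ := h
  exact ⟨by fun_prop, C, fun x => hC _⟩

theorem mulOp_mulOp {φ ψ : ℝ → ℂ} (h : BddM φ) (h' : BddM ψ) (f : L2) :
    mulOp φ (mulOp ψ f) = mulOp (fun x => φ x * ψ x) f := by
  refine Lp.ext ?_
  filter_upwards [mulOp_coe h (mulOp ψ f), mulOp_coe h' f, mulOp_coe (h.mul h') f] with x h1 h2 h3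
  rw [h1, h2, h3, mul_assoc]

theorem inner_eq (f g : L2) : inner ℂ f g = ∫ x, conj (f x) * g x := by
  rw [L2.inner_def]
  refine integral_congr_ae (ae_of_all _ fun x => ?_)
  exact RCLike.inner_apply' _ _

theorem inner_mulOp {φ : ℝ → ℂ} (h : BddM φ) (f g : L2) :
    inner ℂ (mulOp φ f) g = inner ℂ f (mulOp (fun x => conj (φ x)) g) := by
  rw [inner_eq, inner_eq]
  refine integral_congr_ae ?_
  filter_upwards [mulOp_coe h f, mulOp_coe h.star g] with x h1 h2
  rw [h1, h2, map_mul]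
  ring

/-- translation: `(τ_c f)(x) = f (x - c)` -/
noncomputable def trOp (c : ℝ) : L2 →ₗᵢ[ℂ] L2 :=
  Lp.compMeasurePreservingₗᵢ ℂ (fun x : ℝ => x - c) (measurePreserving_sub_right volume c)

theorem trOp_coe (c : ℝ) (f : L2) : (trOp c f : ℝ → ℂ) =ᵐ[volume] fun x => f (x - c) :=
  Lp.coeFn_compMeasurePreserving f (measurePreserving_sub_right volume c)

theorem ae_comp_sub {p : ℝ → Prop} (h : ∀ᵐ x, p x) (c : ℝ) : ∀ᵐ x, p (x - c) :=
  (measurePreserving_sub_right volume c).quasiMeasurePreserving.ae h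

theorem trOp_trOp (c d : ℝ) (f : L2) : trOp c (trOp d f) = trOp (c + d) f := by
  refine Lp.ext ?_
  filter_upwards [trOp_coe c (trOp d f), ae_comp_sub (trOp_coe d f) c, trOp_coe (c + d) f]
    with x h1 h2 h3
  rw [h1, h2, h3]
  congr 1
  ring

theorem trOp_zero (f : L2) : trOp 0 f = f := by
  refine Lp.ext ?_
  filter_upwards [trOp_coe 0 f] with x h1
  rw [h1, sub_zero]

theorem inner_trOp (c : ℝ) (f g : L2) :
    inner ℂ (trOp c f) g = inner ℂ f (trOp (-c) g) := by
  have h : g = trOp c (trOp (-c) g) := by rw [trOp_trOp, add_neg_cancel, trOp_zero]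
  conv_lhs => rw [h]
  exact (trOp c).inner_map_map f _

theorem trOp_mulOp {φ : ℝ → ℂ} (h : BddM φ) (c : ℝ) (f : L2) :
    trOp c (mulOp φ f) = mulOp (fun x => φ (x - c)) (trOp c f) := by
  have h' : BddM (fun x => φ (x - c)) := by
    simpa [sub_eq_add_neg] using h.comp_add (-c)
  refine Lp.ext ?_
  filter_upwards [trOp_coe c (mulOp φ f), ae_comp_sub (mulOp_coe h f) c, trOp_coe c f,
    mulOp_coe h' (trOp c f)] with x h1 h2 h3 h4
  rw [h1, h2, h4, h3]

end Pool.Agent.Helper92.HRU
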