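import Pool.Agent.Helper84.HRT.Defs
import Pool.Agent.Helper92.HRU.Iso2

/-!
# `L²(ℝ)` carries a Weyl system
-/

set_option autoImplicit false

namespace Pool.Agent.Helper92.HRU

open Complex Set MeasureTheory Filter Topology
open scoped ComplexConjugate Real ENNReal
open Pool.Agent.Helper84.HRT (Weyl coc dA)

/-- the Weyl system on `L²(ℝ)`: `(U α f)(x) = exp (i a (x - b)) f (x - 2 b)`, `α = a + i b` -/
noncomputable def LW : Weyl L2 where
  U := W
  g0 := G0
  norm_U := norm_W
  U_zero := W_zero
  U_mul := fun α β f => by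
    rw [W_W, coc]
    congr 2
    ring
  cont := continuous_W
  g0_inner := fun α => by
    rw [inner_G0_W, Complex.ofReal_exp]
    congr 1
    push_cast
    ring
  isom := fun f => by
    rw [dA, lintegral_smul_measure, lintegral_coh, smul_eq_mul, ← mul_assoc,
      ← ENNReal.ofReal_mul (by positivity)]
    have h1 : 1 / π * π = 1 := by field_simp
    rw [h1, ENNReal.ofReal_one, one_mul]
    have h2 := norm_toLp_sq (Lp.memLp f)
    rw [Lp.toLp_coeFn] at h2
    rw [← ofReal_norm, ← ENNReal.ofReal_pow (norm_nonneg _), h2,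
      ofReal_integral_eq_lintegral_ofReal
        ((memLp_two_iff_integrable_sq_norm (Lp.aestronglyMeasurable f)).mp (Lp.memLp f))
        (ae_of_all _ fun u => by positivity)]
    refine lintegral_congr fun t => ?_
    rw [← ofReal_norm, ENNReal.ofReal_pow (norm_nonneg _)]

theorem LW_U (α : ℂ) (f : L2) : LW.U α f = W α f := rfl

theorem LW_g0 : LW.g0 = G0 := rfl

end Pool.Agent.Helper92.HRU
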