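import Mathlib

/-!
# Plancherel for integrable, square integrable functions on the line
-/

set_option autoImplicit false

namespace Pool.Agent.Helper92.HRU

open Complex Set MeasureTheory Filter Topology FourierTransform SchwartzMap
open scoped ComplexConjugate Real ENNReal

/-- the `L²` Fourier transform of an integrable function is the Fourier integral -/
theorem fourier_toLp_ae {g : ℝ → ℂ} (h1 : Integrable g) (h2 : MemLp g 2) :
    ((𝓕 (h2.toLp g) : Lp ℂ 2 (volume : Measure ℝ)) : ℝ → ℂ) =ᵐ[volume] 𝓕 g := by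
  have hc : Continuous (𝓕 g) :=
    VectorFourier.fourierIntegral_continuous (L := innerₗ ℝ) Real.continuous_fourierChar
      continuous_inner h1
  refine ae_eq_of_integral_contDiff_smul_eq ?_ hc.locallyIntegrable ?_
  · exact (Lp.memLp _).locallyIntegrable (by norm_num)
  · intro φ hφ hs
    have hg₁ : HasCompactSupport (Complex.ofRealCLM ∘ φ) := hs.comp_left rfl
    have hg₂ : ContDiff ℝ (⊤ : ℕ∞) (Complex.ofRealCLM ∘ φ) := by fun_prop
    let ψ : 𝓢(ℝ, ℂ) := hg₁.toSchwartzMap hg₂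
    have e0 := DFunLike.congr_fun (Lp.fourier_toTemperedDistribution_eq (h2.toLp g)) ψ
    rw [TemperedDistribution.fourier_apply, Lp.toTemperedDistribution_apply,
      Lp.toTemperedDistribution_apply] at e0
    have e1 : ∫ x, (𝓕 ψ) x • (h2.toLp g) x = ∫ x, (𝓕 ψ) x • g x := by
      refine integral_congr_ae ?_
      filter_upwards [h2.coeFn_toLp] with x hx
      rw [hx]
    have e3 := VectorFourier.integral_fourierIntegral_smul_eq_flip (μ := volume) (ν := volume)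
      (L := innerₗ ℝ) (f := ψ) (g := g) Real.continuous_fourierChar
      (by fun_prop) ψ.integrable h1
    rw [flip_innerₗ] at e3
    have e4 : ∫ x, φ x • ((𝓕 (h2.toLp g) : Lp ℂ 2 (volume : Measure ℝ)) : ℝ → ℂ) x
        = ∫ x, ψ x • ((𝓕 (h2.toLp g) : Lp ℂ 2 (volume : Measure ℝ)) : ℝ → ℂ) x := by
      refine integral_congr_ae (ae_of_all _ fun x => ?_)
      simp [ψ]
    have e5 : ∫ x, φ x • 𝓕 g x = ∫ x, ψ x • 𝓕 g x := by
      refine integral_congr_ae (ae_of_all _ fun x => ?_)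
      simp [ψ]
    rw [e4, e5, ← e0, e1]
    exact e3

theorem norm_toLp_sq {f : ℝ → ℂ} (hf : MemLp f 2) : ‖hf.toLp f‖ ^ 2 = ∫ u, ‖f u‖ ^ 2 := by
  rw [Lp.norm_toLp, hf.eLpNorm_eq_integral_rpow_norm (by norm_num) (by norm_num)]
  have h6 : (2 : ℝ≥0∞).toReal = 2 := by norm_num
  have h7 : ∀ a, ‖f a‖ ^ (2 : ℝ) = ‖f a‖ ^ 2 := fun a => Real.rpow_two _
  simp only [h6, h7]
  have h8 : 0 ≤ ∫ a, ‖f a‖ ^ 2 := integral_nonneg fun a => by positivity
  rw [ENNReal.toReal_ofReal (Real.rpow_nonneg h8 _), ← Real.rpow_natCast, ← Real.rpow_mul h8]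
  norm_num

/-- Plancherel for functions in `L¹ ∩ L²` -/
theorem memLp_fourier {g : ℝ → ℂ} (h1 : Integrable g) (h2 : MemLp g 2) : MemLp (𝓕 g) 2 :=
  (memLp_congr_ae (fourier_toLp_ae h1 h2)).mp (Lp.memLp _)

theorem plancherel {g : ℝ → ℂ} (h1 : Integrable g) (h2 : MemLp g 2) :
    ∫ t, ‖𝓕 g t‖ ^ 2 = ∫ u, ‖g u‖ ^ 2 := by
  have h3 := memLp_fourier h1 h2
  have key : 𝓕 (h2.toLp g) = h3.toLp (𝓕 g) := by
    apply Lp.ext
    exact (fourier_toLp_ae h1 h2).trans h3.coeFn_toLp.symm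
  rw [← norm_toLp_sq h2, ← norm_toLp_sq h3, ← key, Lp.norm_fourier_eq]

end Pool.Agent.Helper92.HRU
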