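import Pool.Agent.Helper92.HRU.L2Ops
import Pool.Agent.Helper92.HRU.Planch

/-!
# The Weyl operators on `L²(ℝ)`: group law, adjoint, strong continuity
-/

set_option autoImplicit false

namespace Pool.Agent.Helper92.HRU

open Complex Set MeasureTheory Filter Topology
open scoped ComplexConjugate Real ENNReal

/-- the phase `exp (i a (x - b))`, `α = a + i b` -/
noncomputable def chr (α : ℂ) (x : ℝ) : ℂ := exp (I * ((α.re * (x - α.im) : ℝ) : ℂ))

theorem norm_chr (α : ℂ) (x : ℝ) : ‖chr α x‖ = 1 := by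
  rw [chr, mul_comm, Complex.norm_exp_ofReal_mul_I]

theorem bddM_chr (α : ℂ) : BddM (chr α) :=
  ⟨by unfold chr; fun_prop, 1, fun x => (norm_chr α x).le⟩

/-- the Weyl operator: `(W α f)(x) = exp (i a (x - b)) f (x - 2 b)` -/
noncomputable def W (α : ℂ) : L2 →L[ℂ] L2 :=
  (mulOp (chr α)) ∘L (trOp (2 * α.im)).toContinuousLinearMap

theorem W_apply (α : ℂ) (f : L2) : W α f = mulOp (chr α) (trOp (2 * α.im) f) := rfl

theorem W_coe (α : ℂ) (f : L2) :
    (W α f : ℝ → ℂ) =ᵐ[volume] fun x => chr α x * f (x - 2 * α.im) := by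
  filter_upwards [mulOp_coe (bddM_chr α) (trOp (2 * α.im) f), trOp_coe (2 * α.im) f] with x h1 h2
  rw [W_apply, h1, h2]

theorem W_W (α β : ℂ) (f : L2) :
    W α (W β f) = exp (-I * ((α * conj β).im : ℝ)) • W (α + β) f := by
  refine Lp.ext ?_
  filter_upwards [W_coe α (W β f), ae_comp_sub (W_coe β f) (2 * α.im), W_coe (α + β) f,
    Lp.coeFn_smul (exp (-I * ((α * conj β).im : ℝ))) (W (α + β) f)] with x h1 h2 h3 h4
  rw [h1, h2, h4, Pi.smul_apply, h3, smul_eq_mul, chr, chr, chr, ← mul_assoc, ← mul_assoc,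
    ← Complex.exp_add, ← Complex.exp_add]
  congr 2
  · push_cast
    simp only [mul_im, conj_re, conj_im, add_re, add_im]
    push_cast
    ring
  · simp only [add_im]
    ring

theorem W_zero (f : L2) : W 0 f = f := by
  refine Lp.ext ?_
  filter_upwards [W_coe 0 f] with x h1
  rw [h1]
  simp [chr]

theorem W_neg_W (α : ℂ) (f : L2) : W (-α) (W α f) = f := by
  have h : (-α * conj α).im = 0 := by
    simp only [mul_im, neg_re, neg_im, conj_re, conj_im]
    ring
  rw [W_W, neg_add_cancel, W_zero, h]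
  simp

theorem W_W_neg (α : ℂ) (f : L2) : W α (W (-α) f) = f := by
  have h := W_neg_W (-α) f
  rwa [neg_neg] at h

theorem norm_W (α : ℂ) (f : L2) : ‖W α f‖ = ‖f‖ := by
  refine le_antisymm ?_ ?_
  · have h := norm_mulOp_le (bddM_chr α) (C := 1) (fun x => (norm_chr α x).le)
      (trOp (2 * α.im) f)
    rw [W_apply]
    simpa using h
  · have h1 : f = W (-α) (W α f) := (W_neg_W α f).symm
    have h := norm_mulOp_le (bddM_chr (-α)) (C := 1) (fun x => (norm_chr (-α) x).le)
      (trOp (2 * (-α).im) (W α f))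
    calc ‖f‖ = ‖W (-α) (W α f)‖ := by rw [← h1]
      _ ≤ ‖W α f‖ := by
        rw [W_apply (-α)]
        simpa using h

theorem inner_W (α : ℂ) (f g : L2) : inner ℂ (W α f) g = inner ℂ f (W (-α) g) := by
  have h1 : g = W α (W (-α) g) := (W_W_neg α g).symm
  have h2 : ∀ u v : L2, inner ℂ (W α u) (W α v) = inner ℂ u v := by
    intro u v
    have hi : ∀ w : L2, ‖(W α : L2 →ₗ[ℂ] L2) w‖ = ‖w‖ := fun w => norm_W α w
    exact (LinearMap.norm_map_iff_inner_map_map (W α : L2 →ₗ[ℂ] L2)).mp hi u v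
  conv_lhs => rw [h1]
  exact h2 _ _

theorem continuous_trOp (f : L2) : Continuous fun c : ℝ => trOp c f := by
  have h : Continuous fun c : ℝ => (⟨fun x : ℝ => x - c, by fun_prop⟩ : C(ℝ, ℝ)) := by
    refine ContinuousMap.continuous_of_continuous_uncurry _ ?_
    change Continuous fun p : ℝ × ℝ => p.2 - p.1
    fun_prop
  exact Continuous.compMeasurePreservingLp (f := fun _ => f) continuous_const h
    (fun c => measurePreserving_sub_right volume c) (by norm_num)

theorem tendsto_mulOp_chr (f : L2) (α : ℂ) :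
    Tendsto (fun β => mulOp (chr β) f) (𝓝 α) (𝓝 (mulOp (chr α) f)) := by
  rw [tendsto_iff_norm_sub_tendsto_zero]
  have key : ∀ β, ‖mulOp (chr β) f - mulOp (chr α) f‖ ^ 2
      = ∫ x, ‖(chr β x - chr α x) * f x‖ ^ 2 := by
    intro β
    have hm : MemLp (fun x => (chr β x - chr α x) * f x) 2 (volume : Measure ℝ) := by
      have h1 := (memLp_mul (bddM_chr β) f).sub (memLp_mul (bddM_chr α) f)
      refine h1.ae_eq (ae_of_all _ fun x => ?_)
      simp only [Pi.sub_apply]
      ring
    have he : mulOp (chr β) f - mulOp (chr α) f = hm.toLp _ := by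
      refine Lp.ext ?_
      filter_upwards [Lp.coeFn_sub (mulOp (chr β) f) (mulOp (chr α) f), hm.coeFn_toLp,
        mulOp_coe (bddM_chr β) f, mulOp_coe (bddM_chr α) f] with x h1 h2 h3 h4
      rw [h1, h2, Pi.sub_apply, h3, h4]
      ring
    rw [he, norm_toLp_sq hm]
  have h2 : Tendsto (fun β => ∫ x, ‖(chr β x - chr α x) * f x‖ ^ 2) (𝓝 α)
      (𝓝 (∫ x, ‖(chr α x - chr α x) * f x‖ ^ 2)) := by
    refine tendsto_integral_filter_of_dominated_convergence (fun x => 4 * ‖f x‖ ^ 2) ?_ ?_ ?_ ?_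
    · refine Eventually.of_forall fun β => ?_
      have h3 : Measurable fun x => chr β x - chr α x :=
        (bddM_chr β).1.sub (bddM_chr α).1
      exact ((h3.aestronglyMeasurable.mul (Lp.aestronglyMeasurable f)).norm).pow 2
    · refine Eventually.of_forall fun β => ae_of_all _ fun x => ?_
      rw [Real.norm_eq_abs, abs_of_nonneg (by positivity), norm_mul, mul_pow]
      have h3 : ‖chr β x - chr α x‖ ≤ 2 := by
        calc ‖chr β x - chr α x‖ ≤ ‖chr β x‖ + ‖chr α x‖ := norm_sub_le _ _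
          _ = 2 := by rw [norm_chr, norm_chr]; norm_num
      have h4 : ‖chr β x - chr α x‖ ^ 2 ≤ 4 := by nlinarith [norm_nonneg (chr β x - chr α x)]
      exact mul_le_mul_of_nonneg_right h4 (by positivity)
    · exact ((memLp_two_iff_integrable_sq_norm (Lp.aestronglyMeasurable f)).mp
        (Lp.memLp f)).const_mul 4
    · refine ae_of_all _ fun x => ?_
      have h5 : Continuous fun β : ℂ => ‖(chr β x - chr α x) * f x‖ ^ 2 := by
        unfold chr
        fun_prop
      exact h5.tendsto α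
  have h3 : Tendsto (fun β => ‖mulOp (chr β) f - mulOp (chr α) f‖ ^ 2) (𝓝 α) (𝓝 0) := by
    simp_rw [key]
    simpa using h2
  have h4 := h3.sqrt
  rw [Real.sqrt_zero] at h4
  refine h4.congr fun β => ?_
  rw [Real.sqrt_sq (norm_nonneg _)]

/-- strong continuity -/
theorem continuous_W (f : L2) : Continuous fun α : ℂ => W α f := by
  rw [continuous_iff_continuousAt]
  intro α
  have h1 : Tendsto (fun β : ℂ => ‖W β f - W α f‖) (𝓝 α) (𝓝 0) := by
    have h2 : Tendsto (fun β : ℂ => ‖trOp (2 * β.im) f - trOp (2 * α.im) f‖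
        + ‖mulOp (chr β) (trOp (2 * α.im) f) - mulOp (chr α) (trOp (2 * α.im) f)‖)
        (𝓝 α) (𝓝 (0 + 0)) := by
      refine Tendsto.add ?_ ?_
      · have h3 : Continuous fun β : ℂ => trOp (2 * β.im) f :=
          (continuous_trOp f).comp (by fun_prop)
        exact tendsto_iff_norm_sub_tendsto_zero.mp (h3.tendsto α)
      · exact tendsto_iff_norm_sub_tendsto_zero.mp (tendsto_mulOp_chr _ α)
    rw [add_zero] at h2
    refine squeeze_zero (fun β => norm_nonneg _) (fun β => ?_) h2
    have h4 : W β f - W α f = mulOp (chr β) (trOp (2 * β.im) f - trOp (2 * α.im) f)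
        + (mulOp (chr β) (trOp (2 * α.im) f) - mulOp (chr α) (trOp (2 * α.im) f)) := by
      rw [W_apply, W_apply, map_sub]
      abel
    rw [h4]
    refine (norm_add_le _ _).trans (add_le_add ?_ le_rfl)
    have h5 := norm_mulOp_le (bddM_chr β) (C := 1) (fun x => (norm_chr β x).le)
      (trOp (2 * β.im) f - trOp (2 * α.im) f)
    simpa using h5
  exact tendsto_iff_norm_sub_tendsto_zero.mpr h1

end Pool.Agent.Helper92.HRU
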